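import Pool.Agent.Helper77.OF4.St

set_option autoImplicit false

namespace Pool.Agent.Helper28.OF4.BC

open Equiv Equiv.Perm Pool.Agent.Helper35.PM Pool.Agent.Helper77.HY Pool.Agent.Helper77.OF4

theorem two {D : Type} (φ : Perm D)
    (h : ∀ d, Function.minimalPeriod φ d = 2 ∨ Function.minimalPeriod φ d = 5) (d : D)
    (hd : ¬ Odd (Function.minimalPeriod φ d)) : φ (φ d) = d := by
  have h1 : Function.minimalPeriod φ d = 2 := by
    rcases h d with h1 | h1
    · exact h1
    · rw [h1] at hd
      exact absurd (by decide) hd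
  have h2 := Function.iterate_minimalPeriod (f := φ) (x := d)
  rw [h1] at h2
  exact h2

theorem main : StBc := by
  classical
  intro V D _ M hF hp e x hx hodd
  have hcyc : M.r.SameCycle e x := M.trans e x hx.symm
  have hinv : ∀ z, M.r (M.r⁻¹ z) = z := fun z => M.r.apply_symm_apply z
  have ht' : ∀ z, M.t (M.r⁻¹ z) = M.t z := by
    intro z
    conv_rhs => rw [← hinv z, M.t_r]
  have hφ1 : ∀ z, M.φ (M.ι (M.r⁻¹ z)) = z := by
    intro z
    rw [PMap.φ_apply, M.inv, hinv]
  -- backwards
  have hex1 : ∃ n : ℕ, Odd (Function.minimalPeriod M.φ ((M.r⁻¹ ^ n) e)) := by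
    obtain ⟨n, hn⟩ := (sameCycle_inv.mpr hcyc).exists_nat_pow_eq
    exact ⟨n, by rw [hn]; exact hodd⟩
  obtain ⟨e1, h1t, h1i, h1o⟩ : ∃ e1, M.t e1 = M.t e ∧ M.t (M.ι e1) = M.t (M.ι e) ∧
      Odd (Function.minimalPeriod M.φ e1) := by
    refine ⟨(M.r⁻¹ ^ (Nat.find hex1)) e, ?_, ?_, Nat.find_spec hex1⟩
    · generalize Nat.find hex1 = n
      induction n with
      | zero => simp
      | succ n ih => rw [pow_succ', Perm.mul_apply, ht', ih]
    · have key : ∀ n, n ≤ Nat.find hex1 → M.t (M.ι ((M.r⁻¹ ^ n) e)) = M.t (M.ι e) := by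
        intro n
        induction n with
        | zero => intro _; simp
        | succ n ih =>
          intro hn
          have h3 := ih (by omega)
          have h4 := Nat.find_min hex1 (m := n) (by omega)
          rw [pow_succ', Perm.mul_apply]
          set y := (M.r⁻¹ ^ n) e with hy
          have h5 := two M.φ hp y h4
          have h6 : M.φ y = M.ι (M.r⁻¹ y) := by
            apply M.φ.injective
            rw [h5, hφ1]
          rw [← h6, t_φ, h3]
      exact key _ le_rfl
  -- forwards
  have hper : Function.minimalPeriod M.φ (M.ι (M.r⁻¹ x)) = Function.minimalPeriod M.φ x := by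
    conv_rhs => rw [← hφ1 x]
    rw [Function.minimalPeriod_apply]
    rcases hp (M.ι (M.r⁻¹ x)) with h | h <;>
      exact Function.minimalPeriod_pos_iff_mem_periodicPts.mp (by rw [h]; norm_num)
  have hex2 : ∃ n : ℕ, Odd (Function.minimalPeriod M.φ (M.ι ((M.r ^ n) e))) := by
    have h1 : M.r.SameCycle e (M.r⁻¹ x) := by
      rw [← sameCycle_apply_right, hinv]
      exact hcyc
    obtain ⟨n, hn⟩ := h1.exists_nat_pow_eq
    exact ⟨n, by rw [hn, hper]; exact hodd⟩
  obtain ⟨e2, h2t, h2i, h2o⟩ : ∃ e2, M.t e2 = M.t (M.ι e) ∧ M.t (M.ι e2) = M.t e ∧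
      Odd (Function.minimalPeriod M.φ e2) := by
    refine ⟨M.ι ((M.r ^ (Nat.find hex2)) e), ?_, ?_, Nat.find_spec hex2⟩
    · have key : ∀ n, n ≤ Nat.find hex2 → M.t (M.ι ((M.r ^ n) e)) = M.t (M.ι e) := by
        intro n
        induction n with
        | zero => intro _; simp
        | succ n ih =>
          intro hn
          have h3 := ih (by omega)
          have h4 := Nat.find_min hex2 (m := n) (by omega)
          rw [pow_succ', Perm.mul_apply]
          set y := (M.r ^ n) e with hy
          have h5 := two M.φ hp (M.ι y) h4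
          have h6 : M.φ (M.ι y) = M.r y := by rw [PMap.φ_apply, M.inv]
          rw [h6] at h5
          have h7 : M.t (M.ι (M.r y)) = M.t (M.φ (M.r y)) := (t_φ M (M.r y)).symm
          rw [h7, h5, h3]
      exact key _ le_rfl
    · rw [M.inv, M.t_pow]
  refine ⟨e1, e2, h1t, h1i, h1o, h2t, h2i, h2o, fun hs => ?_⟩
  have h3 : M.φ e1 = e2 := by
    apply hF
    · rw [sameCycle_apply_left]; exact hs
    · rw [t_φ, h1i, h2t]
  have h4 : M.φ e2 = e1 := by
    apply hF
    · rw [sameCycle_apply_left]; exact hs.symm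
    · rw [t_φ, h2i, h1t]
  have h5 : Function.IsPeriodicPt M.φ 2 e1 := by
    show M.φ (M.φ e1) = e1
    rw [h3, h4]
  have h6 := h5.minimalPeriod_dvd
  rcases hp e1 with h | h
  · rw [h] at h1o
    exact absurd h1o (by decide)
  · rw [h] at h6
    omega

end Pool.Agent.Helper28.OF4.BC
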